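import Pool.Agent.Helper57.HS.GoalsG
import Pool.Agent.Helper45.HS.MatC
import Pool.Agent.Helper89.Lin.Phell

/-! Packet HS-G C2A: from the third order estimate to Hölder bounds. -/

open Complex Metric Set Filter Topology MeasureTheory
open scoped ContDiff ComplexConjugate ComplexOrder Manifold Matrix

namespace Pool.Agent.Helper40.HS

open Pool.Agent.Helper95.Lin Pool.Agent.Helper16.Abund Pool.Agent.Helper92.Orb
  Pool.Agent.Helper10.SP Pool.Agent.Helper95.RK Pool.Agent.Helper57.HS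
  Pool.Agent.Helper89.Lin Pool.Agent.Helper45.HS

universe u

variable {n : ℕ}

/-- The square of the Frobenius norm. -/
theorem trace_mul_self {A : Matrix (Fin n) (Fin n) ℂ} :
    (Aᴴ * A).trace.re = ∑ i, ∑ j, ‖A i j‖ ^ 2 := by
  unfold Matrix.trace
  rw [Complex.re_sum, Finset.sum_comm]
  refine Finset.sum_congr rfl fun j _ => ?_
  rw [Matrix.diag_apply, Matrix.mul_apply, Complex.re_sum]
  refine Finset.sum_congr rfl fun i _ => ?_
  rw [Matrix.conjTranspose_apply, mul_comm]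
  change (A i j * conj (A i j)).re = _
  rw [Complex.mul_conj, Complex.ofReal_re, Complex.normSq_eq_norm_sq]

/-- The entries of a positive semidefinite matrix are bounded by its trace. -/
theorem entry_le_trace {L : Matrix (Fin n) (Fin n) ℂ} (hL : L.PosSemidef) (i j : Fin n) :
    ‖L i j‖ ≤ L.trace.re := by
  obtain ⟨B, rfl⟩ := exists_root hL
  rw [trace_mul_self]
  have h1 : ‖(Bᴴ * B) i j‖ ≤ ∑ p, ‖B p i‖ * ‖B p j‖ := by
    rw [Matrix.mul_apply]
    refine (norm_sum_le _ _).trans (Finset.sum_le_sum fun p _ => ?_)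
    rw [norm_mul, Matrix.conjTranspose_apply]
    simp
  refine h1.trans (Finset.sum_le_sum fun p _ => ?_)
  rcases eq_or_ne i j with rfl | hij
  · have := Finset.single_le_sum (f := fun q => ‖B p q‖ ^ 2) (fun q _ => by positivity)
      (Finset.mem_univ i)
    calc ‖B p i‖ * ‖B p i‖ = ‖B p i‖ ^ 2 := by ring
      _ ≤ _ := this
  · have h2 : ‖B p i‖ ^ 2 + ‖B p j‖ ^ 2 ≤ ∑ q, ‖B p q‖ ^ 2 := by
      have := Finset.sum_le_sum_of_subset_of_nonneg (s := {i, j}) (t := Finset.univ)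
        (f := fun q => ‖B p q‖ ^ 2) (Finset.subset_univ _) (fun q _ _ => by positivity)
      rwa [Finset.sum_pair hij] at this
    nlinarith [sq_nonneg (‖B p i‖ - ‖B p j‖), sq_nonneg (‖B p i‖), sq_nonneg (‖B p j‖)]

/-- `L ≤ (tr L) 1`. -/
theorem le_trace {L : Matrix (Fin n) (Fin n) ℂ} (hL : L.PosSemidef) {M : ℝ}
    (hM : L.trace.re ≤ M) : ((M : ℂ) • (1 : Matrix (Fin n) (Fin n) ℂ) - L).PosSemidef := by
  rw [Matrix.posSemidef_iff_dotProduct_mulVec]
  have hh : ((M : ℂ) • (1 : Matrix (Fin n) (Fin n) ℂ) - L).IsHermitian := by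
    refine Matrix.IsHermitian.sub ?_ hL.isHermitian
    unfold Matrix.IsHermitian
    rw [Matrix.conjTranspose_smul, Matrix.conjTranspose_one]
    congr 1
    exact Complex.conj_ofReal M
  refine ⟨hh, fun x => ?_⟩
  have him : (star x ⬝ᵥ ((M : ℂ) • (1 : Matrix (Fin n) (Fin n) ℂ) - L) *ᵥ x).im = 0 := by
    have := hh.im_star_dotProduct_mulVec_self x
    exact this
  rw [Complex.nonneg_iff]
  refine ⟨?_, him.symm⟩
  obtain ⟨B, rfl⟩ := exists_root hL
  rw [Matrix.sub_mulVec, dotProduct_sub, Complex.sub_re, Matrix.smul_mulVec, Matrix.one_mulVec,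
    dotProduct_smul, smul_eq_mul, Complex.re_ofReal_mul]
  have e0 : (star x ⬝ᵥ x).re = ∑ i, ‖x i‖ ^ 2 := by
    unfold dotProduct
    rw [Complex.re_sum]
    refine Finset.sum_congr rfl fun i _ => ?_
    rw [Pi.star_apply, mul_comm]
    change (x i * conj (x i)).re = _
    rw [Complex.mul_conj, Complex.ofReal_re, Complex.normSq_eq_norm_sq]
  have e1 : (star x ⬝ᵥ ((Bᴴ * B) *ᵥ x)).re = ∑ i, ‖(B *ᵥ x) i‖ ^ 2 := by
    rw [← Matrix.mulVec_mulVec, Matrix.dotProduct_mulVec, Matrix.vecMul_conjTranspose, star_star]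
    unfold dotProduct
    rw [Complex.re_sum]
    refine Finset.sum_congr rfl fun i _ => ?_
    rw [Pi.star_apply, mul_comm]
    change ((B *ᵥ x) i * conj ((B *ᵥ x) i)).re = _
    rw [Complex.mul_conj, Complex.ofReal_re, Complex.normSq_eq_norm_sq]
  rw [e0, e1]
  rw [trace_mul_self] at hM
  have e2 : ∀ i, ‖(B *ᵥ x) i‖ ^ 2 ≤ (∑ j, ‖B i j‖ ^ 2) * ∑ j, ‖x j‖ ^ 2 := by
    intro i
    have h1 : ‖(B *ᵥ x) i‖ ≤ ∑ j, ‖B i j‖ * ‖x j‖ := by
      unfold Matrix.mulVec dotProduct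
      refine (norm_sum_le _ _).trans (Finset.sum_le_sum fun j _ => ?_)
      rw [norm_mul]
    have h2 := Finset.sum_mul_sq_le_sq_mul_sq Finset.univ (fun j => ‖B i j‖) (fun j => ‖x j‖)
    exact (pow_le_pow_left₀ (norm_nonneg _) h1 2).trans h2
  have e3 : ∑ i, ‖(B *ᵥ x) i‖ ^ 2 ≤ (∑ i, ∑ j, ‖B i j‖ ^ 2) * ∑ j, ‖x j‖ ^ 2 := by
    rw [Finset.sum_mul]
    exact Finset.sum_le_sum fun i _ => e2 i
  have e4 : 0 ≤ ∑ j, ‖x j‖ ^ 2 := Finset.sum_nonneg fun j _ => by positivity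
  nlinarith [mul_le_mul_of_nonneg_right hM e4]

/-- Inverses of comparable matrices. -/
theorem inv_sub {Q : Matrix (Fin n) (Fin n) ℂ} (hQ : Q.PosDef) {lam : ℝ} (hlam : 0 < lam)
    (h : (((lam⁻¹ : ℝ) : ℂ) • (1 : Matrix (Fin n) (Fin n) ℂ) - Q).PosSemidef) :
    (Q⁻¹ - (lam : ℂ) • (1 : Matrix (Fin n) (Fin n) ℂ)).PosSemidef := by
  have hQu : IsUnit Q.det := (Matrix.isUnit_iff_isUnit_det Q).1 hQ.isUnit
  have hlam' : (lam : ℂ) ≠ 0 := Complex.ofReal_ne_zero.2 hlam.ne'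
  have h1 : ((1 - (lam : ℂ) • Q) * Q⁻¹ * (1 - (lam : ℂ) • Q)ᴴ).PosSemidef :=
    hQ.inv.posSemidef.mul_mul_conjTranspose_same _
  have h2 : (((lam ^ 2 : ℝ) : ℂ) • (((lam⁻¹ : ℝ) : ℂ) • (1 : Matrix (Fin n) (Fin n) ℂ) -
      Q)).PosSemidef := by
    apply h.smul
    rw [Complex.nonneg_iff]
    exact ⟨by rw [Complex.ofReal_re]; positivity, by rw [Complex.ofReal_im]⟩
  have h3 : (1 - (lam : ℂ) • Q)ᴴ = 1 - (lam : ℂ) • Q := by
    rw [Matrix.conjTranspose_sub, Matrix.conjTranspose_one, Matrix.conjTranspose_smul,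
      hQ.isHermitian.eq]
    congr 2
    exact Complex.conj_ofReal lam
  have h4 : Q⁻¹ - (lam : ℂ) • (1 : Matrix (Fin n) (Fin n) ℂ) =
      (1 - (lam : ℂ) • Q) * Q⁻¹ * (1 - (lam : ℂ) • Q)ᴴ +
      ((lam ^ 2 : ℝ) : ℂ) • (((lam⁻¹ : ℝ) : ℂ) • (1 : Matrix (Fin n) (Fin n) ℂ) - Q) := by
    rw [h3]
    have e1 : Q * Q⁻¹ = 1 := Matrix.mul_nonsing_inv Q hQu
    have e2 : Q⁻¹ * Q = 1 := Matrix.nonsing_inv_mul Q hQu
    have e3 : (1 - (lam : ℂ) • Q) * Q⁻¹ * (1 - (lam : ℂ) • Q) =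
        Q⁻¹ - (lam : ℂ) • 1 - (lam : ℂ) • 1 + ((lam : ℂ) * lam) • Q := by
      rw [sub_mul, sub_mul, one_mul, mul_sub, mul_sub, mul_one, mul_one]
      rw [Matrix.smul_mul, e1, Matrix.mul_smul, e2, Matrix.mul_smul, Matrix.smul_mul,
        Matrix.one_mul, smul_smul]
      abel
    rw [e3, smul_sub, smul_smul]
    have e4 : (((lam ^ 2 : ℝ) : ℂ) * ((lam⁻¹ : ℝ) : ℂ)) = lam := by
      push_cast
      field_simp
    have e5 : (((lam ^ 2 : ℝ) : ℂ)) = (lam : ℂ) * lam := by push_cast; ring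
    rw [e4, e5]
    abel
  rw [h4]
  exact h1.add h2

/-- The lower bound of the third order quantity. -/
theorem aq_lower {H Q : Cn n → Matrix (Fin n) (Fin n) ℂ} {x : Cn n} (hQ : (Q x).PosDef)
    {lam : ℝ} (hlam : 0 < lam)
    (h1 : (((lam⁻¹ : ℝ) : ℂ) • (1 : Matrix (Fin n) (Fin n) ℂ) - Q x).PosSemidef)
    (h2 : (Q x - (lam : ℂ) • (1 : Matrix (Fin n) (Fin n) ℂ)).PosSemidef) :
    lam ^ 3 * ∑ k, ∑ i, ∑ j, ‖Adf H Q k x i j‖ ^ 2 ≤ AQt H Q x := by
  set A : Fin n → Matrix (Fin n) (Fin n) ℂ := fun k => Adf H Q k x with hA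
  obtain ⟨B, hB⟩ := exists_root hQ.posSemidef
  obtain ⟨C, hC⟩ := exists_root hQ.inv.posSemidef
  have hi := inv_sub hQ hlam h1
  set G : Matrix (Fin n) (Fin n) ℂ :=
    Matrix.of fun k l => Matrix.trace (A k * Q x * (A l)ᴴ * (Q x)⁻¹) with hG
  set Z : Fin n → Matrix (Fin n) (Fin n) ℂ := fun k => C * A k * Bᴴ with hZ
  have g1 : ∀ k l, G k l = ∑ p, ∑ q, Z k p q * conj (Z l p q) := by
    intro k l
    have e1 : G k l = Matrix.trace (Z k * (Z l)ᴴ) := by
      rw [hG, Matrix.of_apply]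
      have e2 : Z k * (Z l)ᴴ = C * (A k * (Bᴴ * B) * (A l)ᴴ * Cᴴ) := by
        simp only [hZ, Matrix.conjTranspose_mul, Matrix.conjTranspose_conjTranspose,
          Matrix.mul_assoc]
      rw [e2, Matrix.trace_mul_comm C, ← hB, Matrix.mul_assoc _ Cᴴ C, ← hC]
    rw [e1]
    unfold Matrix.trace
    refine Finset.sum_congr rfl fun p _ => ?_
    rw [Matrix.diag_apply, Matrix.mul_apply]
    rfl
  have g2 : G.PosSemidef := by
    -- Gram matrix
    set Y : Matrix (Fin n) (Fin n × Fin n) ℂ := Matrix.of fun k pq => Z k pq.1 pq.2 with hY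
    have : G = Y * Yᴴ := by
      ext k l
      rw [g1, Matrix.mul_apply, Fintype.sum_prod_type]
      rfl
    rw [this]
    exact Matrix.posSemidef_self_mul_conjTranspose Y
  have g3 : AQt H Q x = ((Q x)⁻¹ * G).trace.re := by
    unfold AQt
    congr 1
    unfold Matrix.trace
    rw [Finset.sum_comm]
    refine Finset.sum_congr rfl fun l _ => ?_
    rw [Matrix.diag_apply, Matrix.mul_apply]
    refine Finset.sum_congr rfl fun k _ => ?_
    rfl
  have g4 : lam * G.trace.re ≤ ((Q x)⁻¹ * G).trace.re := by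
    have := re_trace_mul_nonneg hi g2
    rw [Matrix.sub_mul, Matrix.trace_sub, Complex.sub_re, Matrix.smul_mul, Matrix.one_mul,
      Matrix.trace_smul, smul_eq_mul, Complex.re_ofReal_mul] at this
    linarith
  have g5 : ∀ k, lam * (lam * ∑ i, ∑ j, ‖A k i j‖ ^ 2) ≤ (G k k).re := by
    intro k
    have hAA : (A k * Q x * (A k)ᴴ).PosSemidef := hQ.posSemidef.mul_mul_conjTranspose_same _
    have e1 := re_trace_mul_nonneg hi hAA
    rw [Matrix.sub_mul, Matrix.trace_sub, Complex.sub_re, Matrix.smul_mul, Matrix.one_mul,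
      Matrix.trace_smul, smul_eq_mul, Complex.re_ofReal_mul, Matrix.trace_mul_comm] at e1
    have e2 := re_trace_mul_nonneg h2 (Matrix.posSemidef_conjTranspose_mul_self (A k))
    rw [Matrix.sub_mul, Matrix.trace_sub, Complex.sub_re, Matrix.smul_mul, Matrix.one_mul,
      Matrix.trace_smul, smul_eq_mul, Complex.re_ofReal_mul, trace_mul_self] at e2
    have e3 : (Q x * ((A k)ᴴ * A k)).trace = (A k * Q x * (A k)ᴴ).trace := by
      rw [← Matrix.mul_assoc, Matrix.trace_mul_comm, Matrix.mul_assoc]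
    rw [e3] at e2
    have e4 : (G k k).re = (A k * Q x * (A k)ᴴ * (Q x)⁻¹).trace.re := rfl
    rw [e4]
    have e5 := mul_le_mul_of_nonneg_left (sub_nonneg.1 e2) hlam.le
    linarith
  have g6 : ∑ k, lam * (lam * ∑ i, ∑ j, ‖A k i j‖ ^ 2) ≤ G.trace.re := by
    unfold Matrix.trace
    rw [Complex.re_sum]
    exact Finset.sum_le_sum fun k _ => g5 k
  rw [← Finset.mul_sum, ← Finset.mul_sum] at g6
  rw [g3]
  have g7 := mul_le_mul_of_nonneg_left g6 hlam.le
  calc lam ^ 3 * ∑ k, ∑ i, ∑ j, ‖Adf H Q k x i j‖ ^ 2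
      = lam * (lam * (lam * ∑ k, ∑ i, ∑ j, ‖A k i j‖ ^ 2)) := by ring
    _ ≤ lam * G.trace.re := g7
    _ ≤ _ := g4

/-- The real derivative in terms of `cd`, `cdb`. -/
theorem fderiv_le {f : Cn n → ℂ} {x : Cn n} {β : ℝ} (hβ : 0 ≤ β)
    (h1 : ∀ k, ‖cd k f x‖ ≤ β) (h2 : ∀ k, ‖cdb k f x‖ ≤ β) :
    ‖fderiv ℝ f x‖ ≤ 2 * n * β := by
  have a1 : ∀ k : Fin n, ‖fderiv ℝ f x (Pi.single k 1)‖ ≤ β := by
    intro k
    have e1 : fderiv ℝ f x (Pi.single k 1) = (1 / 2 : ℂ) * (cd k f x + cdb k f x) := by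
      unfold cd cdb; ring
    rw [e1, norm_mul]
    have e2 := norm_add_le (cd k f x) (cdb k f x)
    have e3 : ‖(1 / 2 : ℂ)‖ = 1 / 2 := by simp
    rw [e3]
    linarith [h1 k, h2 k]
  have a2 : ∀ k : Fin n, ‖fderiv ℝ f x (Pi.single k I)‖ ≤ β := by
    intro k
    have e1 : fderiv ℝ f x (Pi.single k I) = (I / 2 : ℂ) * (cd k f x - cdb k f x) := by
      unfold cd cdb; ring_nf; rw [Complex.I_sq]; ring
    rw [e1, norm_mul]
    have e2 := norm_sub_le (cd k f x) (cdb k f x)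
    have e3 : ‖(I / 2 : ℂ)‖ = 1 / 2 := by simp
    rw [e3]
    linarith [h1 k, h2 k]
  apply ContinuousLinearMap.opNorm_le_bound _ (by positivity)
  intro e
  have e0 : e = ∑ k, ((e k).re • (Pi.single k (1 : ℂ) : Cn n) +
      (e k).im • (Pi.single k I : Cn n)) := by
    ext j
    rw [Finset.sum_apply]
    simp only [Pi.add_apply, Pi.smul_apply, Pi.single_apply]
    rw [Finset.sum_eq_single j]
    · simp only [if_true, Complex.real_smul]
      rw [mul_one]
      exact (Complex.re_add_im (e j)).symm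
    · intro k _ hk
      simp [Ne.symm hk]
    · intro h; exact absurd (Finset.mem_univ j) h
  have e1 : fderiv ℝ f x e = ∑ k, ((e k).re • fderiv ℝ f x (Pi.single k (1 : ℂ)) +
      (e k).im • fderiv ℝ f x (Pi.single k I)) := by
    conv_lhs => rw [e0]
    rw [map_sum]
    refine Finset.sum_congr rfl fun k _ => ?_
    rw [map_add, map_smul, map_smul]
  rw [e1]
  have e2 : ∀ k ∈ (Finset.univ : Finset (Fin n)),
      ‖(e k).re • fderiv ℝ f x (Pi.single k (1 : ℂ)) +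
      (e k).im • fderiv ℝ f x (Pi.single k I)‖ ≤ 2 * β * ‖e‖ := by
    intro k _
    refine (norm_add_le _ _).trans ?_
    rw [norm_smul, norm_smul, Real.norm_eq_abs, Real.norm_eq_abs]
    have b1 := (Complex.abs_re_le_norm (e k)).trans (norm_le_pi_norm e k)
    have b2 := (Complex.abs_im_le_norm (e k)).trans (norm_le_pi_norm e k)
    have b3 := mul_le_mul b1 (a1 k) (norm_nonneg _) (norm_nonneg _)
    have b4 := mul_le_mul b2 (a2 k) (norm_nonneg _) (norm_nonneg _)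
    linarith
  refine (norm_sum_le _ _).trans ((Finset.sum_le_card_nsmul _ _ _ e2).trans (le_of_eq ?_))
  rw [Finset.card_univ, Fintype.card_fin, nsmul_eq_mul]
  ring

theorem single3 (f : Fin n → Fin n → Fin n → ℝ) (hf : ∀ k i j, 0 ≤ f k i j) (k i j : Fin n) :
    f k i j ≤ ∑ k, ∑ i, ∑ j, f k i j := by
  have h3 : f k i j ≤ ∑ j, f k i j :=
    Finset.single_le_sum (f := fun j => f k i j) (fun j _ => hf k i j) (Finset.mem_univ j)
  have h4 : ∑ j, f k i j ≤ ∑ i, ∑ j, f k i j :=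
    Finset.single_le_sum (f := fun i => ∑ j, f k i j)
      (fun i _ => Finset.sum_nonneg fun j _ => hf k i j) (Finset.mem_univ i)
  have h5 : ∑ i, ∑ j, f k i j ≤ ∑ k, ∑ i, ∑ j, f k i j :=
    Finset.single_le_sum (f := fun k => ∑ i, ∑ j, f k i j)
      (fun k _ => Finset.sum_nonneg fun i _ => Finset.sum_nonneg fun j _ => hf k i j)
      (Finset.mem_univ k)
  exact h3.trans (h4.trans h5)

theorem c2a (hcov : S_COV) : S_C2A.{u} := by
  intro n T G _ R H hH C hCT hC a Λ K ha ha1 hΛ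
  have hopen : IsOpen T := hH.et.isOpen
  obtain ⟨C₂, hC₂, hCi, hC₂T⟩ := exists_compact_between hC hopen hCT
  -- bounds for `H`
  have hHc : ∀ i j, ContinuousOn (fun x => H x i j) C₂ := fun i j =>
    ((hH.smooth i j).continuousOn).mono hC₂T
  obtain ⟨c, hc, hcH⟩ := Pool.Agent.Helper89.Lin.exists_lower hC₂ H hHc
    (fun x hx => hH.posDef x (hC₂T hx))
  obtain ⟨M, hM⟩ : ∃ M : ℝ, ∀ x ∈ C₂, (H x).trace.re ≤ M := by
    have h1 : ContinuousOn (fun x => (H x).trace.re) C₂ := by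
      refine Complex.continuous_re.comp_continuousOn ?_
      unfold Matrix.trace
      exact continuousOn_finsetSum _ fun i _ => hHc i i
    obtain ⟨M, hM⟩ := (hC₂.image_of_continuousOn h1).bddAbove
    exact ⟨M, fun x hx => hM ⟨x, hx, rfl⟩⟩
  obtain ⟨γ, hγ⟩ : ∃ γ : ℝ, 0 ≤ γ ∧ ∀ x ∈ C₂, ∀ k i j, ‖Gam H k x i j‖ ≤ γ := by
    have h1 : ∀ k i j, ContinuousOn (fun x => Gam H k x i j) C₂ := by
      intro k i j
      have hs : SmM (fun x => Gam H k x) T :=
        (SmM.cdM hopen hH.smooth k).mul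
          (SmM.inv hH.smooth fun x hx => posDef_det (hH.posDef x hx))
      exact ((hs i j).continuousOn).mono hC₂T
    have h2 : ∀ k i j, ∃ b : ℝ, ∀ x ∈ C₂, ‖Gam H k x i j‖ ≤ b := fun k i j =>
      hC₂.exists_bound_of_continuousOn (h1 k i j)
    choose b hb using h2
    refine ⟨∑ k, ∑ i, ∑ j, |b k i j|, by positivity, ?_⟩
    intro x hx k i j
    exact ((hb k i j x hx).trans (le_abs_self _)).trans
      (single3 (fun k i j => |b k i j|) (fun _ _ _ => abs_nonneg _) k i j)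
  -- the ellipticity constant
  set M' : ℝ := max M 1 with hM'
  have hM1 : 1 ≤ M' := le_max_right _ _
  set lam : ℝ := min 1 (min (c / Λ) (1 / (Λ * M'))) with hlam
  have hΛ0 : 0 < Λ := by linarith
  have hl0 : 0 < lam := by
    rw [hlam]
    refine lt_min one_pos (lt_min (by positivity) (by positivity))
  have hl1 : lam ≤ 1 := min_le_left _ _
  have hl2 : lam ≤ c / Λ := (min_le_right _ _).trans (min_le_left _ _)
  have hl3 : lam ≤ 1 / (Λ * M') := (min_le_right _ _).trans (min_le_right _ _)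
  have hl3' : Λ * M' ≤ lam⁻¹ := by
    rw [le_inv_comm₀ (by positivity) hl0]
    rwa [one_div] at hl3
  -- the constants
  set α : ℝ := Real.sqrt (|K| / lam ^ 3) with hα
  set β : ℝ := n * ((α + γ) * (n * lam⁻¹)) with hβ
  have hβ0 : 0 ≤ β := by
    have := hγ.1
    have h1 : 0 ≤ α := Real.sqrt_nonneg _
    positivity
  set L : ℝ := 2 * n * β with hL
  have hL0 : 0 ≤ L := by positivity
  -- the radii
  have hr : ∀ x : Cn n, ∃ r : ℝ, 0 < r ∧ r ≤ 1 / 2 ∧ (x ∈ C → closedBall x r ⊆ C₂) := by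
    intro x
    by_cases hx : x ∈ C
    · have h1 : C₂ ∈ 𝓝 x := mem_interior_iff_mem_nhds.1 (hCi hx)
      obtain ⟨r, hr, hrC⟩ := Metric.nhds_basis_closedBall.mem_iff.1 h1
      refine ⟨min r (1 / 2), lt_min hr (by norm_num), min_le_right _ _, fun _ => ?_⟩
      exact (closedBall_subset_closedBall (min_le_left _ _)).trans hrC
    · exact ⟨1 / 2, by norm_num, le_refl _, fun h => absurd h hx⟩
  choose r hr0 hr1 hrC using hr
  obtain ⟨F, Kc, hKc, hFC, hcb⟩ := hcov n C a r hC ha (fun x _ => hr0 x)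
  refine ⟨lam, Kc * (L + n * lam⁻¹), hl0, hl1, by positivity, ?_⟩
  intro Q hQ hHQ hAQ
  -- ellipticity
  have hell : ∀ x ∈ C₂, (Q x - (lam : ℂ) • (1 : Matrix (Fin n) (Fin n) ℂ)).PosSemidef ∧
      (((lam⁻¹ : ℝ) : ℂ) • (1 : Matrix (Fin n) (Fin n) ℂ) - Q x).PosSemidef := by
    intro x hx
    obtain ⟨h1, h2⟩ := hHQ x (hC₂T hx)
    unfold MLe at h1 h2
    have nn : ∀ t : ℝ, 0 ≤ t → (0 : ℂ) ≤ (t : ℂ) := fun t ht => by
      rw [Complex.nonneg_iff]; exact ⟨by simpa using ht, by simp⟩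
    have one0 : (1 : Matrix (Fin n) (Fin n) ℂ).PosSemidef := Matrix.PosSemidef.one
    constructor
    · -- `Q - lam = Λ⁻¹ (Λ Q - H) + Λ⁻¹ (H - c) + (c/Λ - lam)`
      have e1 : Q x - (lam : ℂ) • (1 : Matrix (Fin n) (Fin n) ℂ) =
          ((Λ⁻¹ : ℝ) : ℂ) • ((Λ : ℂ) • Q x - H x) +
          ((Λ⁻¹ : ℝ) : ℂ) • (H x - (c : ℂ) • (1 : Matrix (Fin n) (Fin n) ℂ)) +
          ((c / Λ - lam : ℝ) : ℂ) • (1 : Matrix (Fin n) (Fin n) ℂ) := by
        have hΛc : (Λ : ℂ) ≠ 0 := Complex.ofReal_ne_zero.2 hΛ0.ne'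
        rw [smul_sub, smul_sub, smul_smul, smul_smul]
        push_cast
        rw [inv_mul_cancel₀ hΛc, one_smul, sub_smul, div_eq_inv_mul]
        abel
      rw [e1]
      refine ((h1.smul (nn _ (by positivity))).add ((hcH x hx).smul (nn _ (by positivity)))).add
        (one0.smul (nn _ (by linarith)))
    · have e2 : ((lam⁻¹ : ℝ) : ℂ) • (1 : Matrix (Fin n) (Fin n) ℂ) - Q x =
          ((Λ : ℂ) • H x - Q x) +
          (Λ : ℂ) • ((M' : ℂ) • (1 : Matrix (Fin n) (Fin n) ℂ) - H x) +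
          ((lam⁻¹ - Λ * M' : ℝ) : ℂ) • (1 : Matrix (Fin n) (Fin n) ℂ) := by
        rw [smul_sub, smul_smul]
        push_cast
        rw [sub_smul]
        abel
      rw [e2]
      refine (h2.add ((le_trace (hH.posDef x (hC₂T hx)).posSemidef
        ((hM x hx).trans (le_max_left _ _))).smul (nn _ hΛ0.le))).add
        (one0.smul (nn _ (by linarith)))
  have hCC : C ⊆ C₂ := fun x hx => interior_subset (hCi hx)
  -- the entries of `Q`
  have htr : ∀ x ∈ C₂, (Q x).trace.re ≤ n * lam⁻¹ := by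
    intro x hx
    have h1 := re_trace_nonneg (hell x hx).2
    rw [Matrix.trace_sub, Matrix.trace_smul, Matrix.trace_one, Fintype.card_fin, Complex.sub_re,
      smul_eq_mul, Complex.re_ofReal_mul, Complex.natCast_re] at h1
    linarith
  have hQe : ∀ x ∈ C₂, ∀ i j, ‖Q x i j‖ ≤ n * lam⁻¹ := fun x hx i j =>
    (entry_le_trace (hQ.posDef x (hC₂T hx)).posSemidef i j).trans (htr x hx)
  -- the entries of `A`
  have hAe : ∀ x ∈ C₂, ∀ k i j, ‖Adf H Q k x i j‖ ≤ α := by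
    intro x hx k i j
    have h1 := (aq_lower (H := H) (hQ.posDef x (hC₂T hx)) hl0 (hell x hx).2 (hell x hx).1).trans
      (hAQ x (hC₂T hx))
    have h2 : ‖Adf H Q k x i j‖ ^ 2 ≤ ∑ k, ∑ i, ∑ j, ‖Adf H Q k x i j‖ ^ 2 :=
      single3 (fun k i j => ‖Adf H Q k x i j‖ ^ 2) (fun k i j => sq_nonneg _) k i j
    rw [hα]
    apply Real.le_sqrt_of_sq_le
    rw [le_div_iff₀ (by positivity)]
    have h6 := mul_le_mul_of_nonneg_left h2 (pow_pos hl0 3).le
    calc ‖Adf H Q k x i j‖ ^ 2 * lam ^ 3 = lam ^ 3 * ‖Adf H Q k x i j‖ ^ 2 := by ring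
      _ ≤ _ := h6
      _ ≤ K := h1
      _ ≤ |K| := le_abs_self K
  -- the derivatives of `Q`
  have hcd : ∀ x ∈ C₂, ∀ k i j, ‖cdM k Q x i j‖ ≤ β := by
    intro x hx k i j
    have hxT := hC₂T hx
    have hu : IsUnit (Q x).det := isUnit_iff_ne_zero.2 (posDef_det (hQ.posDef x hxT))
    have e1 : cdM k Q x = (Adf H Q k x + Gam H k x) * Q x := by
      unfold Adf
      rw [sub_add_cancel]
      unfold Gam
      rw [Matrix.mul_assoc, Matrix.nonsing_inv_mul _ hu, Matrix.mul_one]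
    rw [e1, Matrix.mul_apply]
    have e2 : ∀ p ∈ (Finset.univ : Finset (Fin n)),
        ‖(Adf H Q k x + Gam H k x) i p * Q x p j‖ ≤ (α + γ) * (n * lam⁻¹) := by
      intro p _
      rw [norm_mul]
      refine mul_le_mul ?_ (hQe x hx p j) (norm_nonneg _) ?_
      · rw [Matrix.add_apply]
        exact (norm_add_le _ _).trans (add_le_add (hAe x hx k i p) (hγ.2 x hx k i p))
      · exact add_nonneg (Real.sqrt_nonneg _) hγ.1
    refine (norm_sum_le _ _).trans ((Finset.sum_le_card_nsmul _ _ _ e2).trans (le_of_eq ?_))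
    rw [Finset.card_univ, Fintype.card_fin, nsmul_eq_mul]
  have hcdb : ∀ x ∈ C₂, ∀ k i j, ‖cdbM k Q x i j‖ ≤ β := by
    intro x hx k i j
    have hxT := hC₂T hx
    have e1 : cdM k (fun y => (Q y)ᴴ) x = (cdbM k Q x)ᴴ := cdM_conjTranspose hopen hxT hQ.smooth k
    have e2 : cdM k (fun y => (Q y)ᴴ) x = cdM k Q x :=
      cdM_congr hopen hxT (fun y hy => (hQ.posDef y hy).isHermitian.eq) k
    rw [e2] at e1
    have e3 : cdbM k Q x i j = conj (cdM k Q x j i) := by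
      have := congrArg (fun A => Aᴴ i j) e1
      simp only [Matrix.conjTranspose_conjTranspose] at this
      rw [← this]
      rfl
    rw [e3, Complex.norm_conj]
    exact hcd x hx k j i
  have hfd : ∀ i j, ∀ x ∈ C₂, ‖fderiv ℝ (fun y => Q y i j) x‖ ≤ L := fun i j x hx =>
    fderiv_le hβ0 (fun k => hcd x hx k i j) (fun k => hcdb x hx k i j)
  refine ⟨hQ, fun x hx => ⟨(hell x (hCC hx)).1, (hell x (hCC hx)).2⟩, fun i j => ?_⟩
  apply hcb
  intro x hxF
  have hxC := hFC x hxF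
  have hball := hrC x hxC
  have hnl : 0 ≤ n * lam⁻¹ := by positivity
  refine ⟨fun y hy => (hQe y (hball hy) i j).trans (by linarith), ?_⟩
  intro y hy z hz
  have h1 : ‖Q y i j - Q z i j‖ ≤ L * ‖y - z‖ := by
    refine (convex_closedBall x (r x)).norm_image_sub_le_of_norm_fderiv_le (𝕜 := ℝ)
      (f := fun y => Q y i j) (fun w hw => ?_) (fun w hw => hfd i j w (hball hw)) hz hy
    exact ((hQ.smooth i j).contDiffAt (hopen.mem_nhds (hC₂T (hball hw)))).differentiableAt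
      (by simp)
  refine h1.trans ?_
  have h2 : ‖y - z‖ ≤ 1 := by
    have h3 := norm_sub_le (y - x) (z - x)
    rw [sub_sub_sub_cancel_right] at h3
    have h4 : ‖y - x‖ ≤ r x := by rw [← dist_eq_norm]; exact hy
    have h5 : ‖z - x‖ ≤ r x := by rw [← dist_eq_norm]; exact hz
    linarith [hr1 x]
  have h3 : ‖y - z‖ ≤ ‖y - z‖ ^ a := by
    rcases (norm_nonneg (y - z)).eq_or_lt with h0 | h0
    · rw [← h0]; exact Real.rpow_nonneg le_rfl a
    · calc ‖y - z‖ = ‖y - z‖ ^ (1 : ℝ) := (Real.rpow_one _).symm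
        _ ≤ ‖y - z‖ ^ a := Real.rpow_le_rpow_of_exponent_ge h0 h2 ha1.le
  have h6 : 0 ≤ ‖y - z‖ ^ a := Real.rpow_nonneg (norm_nonneg _) a
  calc L * ‖y - z‖ ≤ L * ‖y - z‖ ^ a := mul_le_mul_of_nonneg_left h3 hL0
    _ ≤ (L + n * lam⁻¹) * ‖y - z‖ ^ a := by nlinarith

end Pool.Agent.Helper40.HS
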