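import Pool.Agent.Helper95.HS.GoalsB

/-! Packet HS ESGE: the average of `ε tr (P H Q⁻¹)` is at least `k`. -/

open Complex Metric Set Filter Topology MeasureTheory
open scoped ContDiff ComplexConjugate ComplexOrder Manifold Matrix

namespace Pool.Agent.Helper40.HS

open Pool.Agent.Helper95.Lin Pool.Agent.Helper16.Abund Pool.Agent.Helper10.SP
  Pool.Agent.Helper95.RK Pool.Agent.Helper57.HS Pool.Agent.Helper95.HS

universe u

/-- A test function times a continuous function is integrable. -/
theorem testF_mul {n : ℕ} {T : Set (Cn n)} (hT : IsOpen T) {κ f : Cn n → ℝ} (hκ : TestF T κ)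
    (hf : ContinuousOn f T) : Integrable (fun x => κ x * f x) := by
  have h1 : Continuous (fun x => κ x * f x) := by
    apply ContinuousOn.continuous_of_tsupport_subset (s := T) _ hT
    · exact (closure_mono (Function.support_mul_subset_left κ f)).trans hκ.2.2
    · exact hκ.1.continuous.continuousOn.mul hf
  have h2 : HasCompactSupport (fun x => κ x * f x) := hκ.2.1.mul_right
  exact h1.integrable_of_hasCompactSupport h2

theorem det_cont {n : ℕ} {T : Set (Cn n)} {Q : Cn n → Matrix (Fin n) (Fin n) ℂ}
    (hQ : ∀ i j, ContDiffOn ℝ ∞ (fun x => Q x i j) T) :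
    ContinuousOn (fun x => (Q x).det.re) T := by
  have h1 : ContinuousOn Q T := by
    apply continuousOn_pi.mpr
    intro i
    apply continuousOn_pi.mpr
    intro j
    exact (hQ i j).continuousOn
  have h2 : ContinuousOn (fun x => (Q x).det) T :=
    (Continuous.matrix_det continuous_id).comp_continuousOn h1
  exact Complex.continuous_re.comp_continuousOn h2

theorem esge (h1 : S_PARF.{u}) (h2 : S_MOMP.{u}) (h3 : S_TRC) (h4 : S_TRI.{u})
    (h5 : S_NULL0.{u}) : S_ESGE.{u} := by
  intro n T G _ R H hH κ hκ k P hP ε Q hε hQ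
  obtain ⟨-, ⟨hPH, -, hPHi, -⟩, hpos, -⟩ := h1 T R H hH k P hP
  have hopen : IsOpen T := hH.et.isOpen
  have hsm : InvF T R fun x => (Matrix.trace (P x * H x * (Q x)⁻¹)).re :=
    (h4 T R Q hQ.ket).1 (fun x => P x * H x) hPH.smooth hPHi
  have hsc : ContinuousOn (trP P H Q) T := hsm.1.continuousOn
  have hdc : ContinuousOn (fun x => (Q x).det.re) T := det_cont hQ.ket.smooth
  have hV : 0 < vol T κ Q := (h5 T R Q hQ.ket κ hκ).1
  set s : Cn n → ℝ := fun x => ε * trP P H Q x with hs
  have hsc' : ContinuousOn s T := continuousOn_const.mul hsc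
  -- bound
  obtain ⟨B, hB0, hB⟩ : ∃ B : ℝ, 0 < B ∧ ∀ x ∈ tsupport κ, s x ≤ B := by
    have hc : IsCompact (tsupport κ) := hκ.test.2.1
    obtain ⟨B, hB⟩ := (hc.image_of_continuousOn (hsc'.mono hκ.test.2.2)).bddAbove
    refine ⟨max B 1, lt_of_lt_of_le one_pos (le_max_right _ _), ?_⟩
    intro x hx
    exact (hB ⟨x, hx, rfl⟩).trans (le_max_left _ _)
  have i1 : Integrable (fun x => κ x * (Q x).det.re) := testF_mul hopen hκ.test hdc
  have i2 : Integrable (fun x => κ x * ((Q x).det.re * s x)) :=
    testF_mul hopen hκ.test (hdc.mul hsc')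
  have i3 : Integrable (fun x => κ x * ((Q x).det.re * s x ^ 2)) :=
    testF_mul hopen hκ.test (hdc.mul (hsc'.pow 2))
  have key : ∀ t : ℝ, 0 < t → t * B ≤ 1 →
      k * vol T κ Q ≤ (∫ x in T, κ x * ((Q x).det.re * s x)) +
        t * ∫ x in T, κ x * ((Q x).det.re * s x ^ 2) := by
    intro t ht htB
    have e1 := (h2 T R H hH κ hκ k P hP ε Q hε hQ (t * ε) (by positivity)).1
    have e2 : (1 : ℝ) + t * ε / ε = 1 + t := by field_simp
    rw [e2] at e1
    have e3 : vol T κ (fun x => Q x + ((t * ε : ℝ) : ℂ) • (P x * H x)) ≤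
        ∫ x in T, (κ x * (Q x).det.re + t * (κ x * ((Q x).det.re * s x)) +
          t ^ 2 * (κ x * ((Q x).det.re * s x ^ 2))) := by
      unfold vol
      apply setIntegral_mono_on
      · apply Integrable.integrableOn
        apply testF_mul hopen hκ.test
        apply det_cont
        intro i j
        exact (hQ.ket.smooth i j).add ((contDiffOn_const (c := ((t * ε : ℝ) : ℂ))).mul
          (hPH.smooth i j))
      · exact ((i1.add (i2.const_mul t)).add (i3.const_mul (t ^ 2))).integrableOn
      · exact hopen.measurableSet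
      · intro x hx
        rcases eq_or_ne (κ x) 0 with h0 | h0
        · simp [h0]
        · have hx' : x ∈ tsupport κ := subset_tsupport κ h0
          have f1 := ((h3 (Q x) (P x * H x) (hQ.ket.posDef x hx)).2.2.2.2 (t * ε)
            (by positivity) (hpos x hx).1).2
          have f2 : (Matrix.trace ((Q x)⁻¹ * (P x * H x))).re = trP P H Q x := by
            unfold trP
            rw [Matrix.trace_mul_comm]
          rw [f2] at f1
          have f3 : t * ε * trP P H Q x = t * s x := by simp only [hs]; ring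
          rw [f3] at f1
          have f4 : t * s x ≤ 1 := (mul_le_mul_of_nonneg_left (hB x hx') ht.le).trans htB
          have f5 := mul_le_mul_of_nonneg_left (f1 f4) (hκ.nonneg x)
          refine f5.trans (le_of_eq ?_)
          ring
    have e4 : ∫ x in T, (κ x * (Q x).det.re + t * (κ x * ((Q x).det.re * s x)) +
          t ^ 2 * (κ x * ((Q x).det.re * s x ^ 2))) = vol T κ Q +
          t * (∫ x in T, κ x * ((Q x).det.re * s x)) +
          t ^ 2 * ∫ x in T, κ x * ((Q x).det.re * s x ^ 2) := by
      have j1 : IntegrableOn (fun x => κ x * (Q x).det.re + t * (κ x * ((Q x).det.re * s x))) T :=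
        (i1.add (i2.const_mul t)).integrableOn
      have j2 : IntegrableOn (fun x => t ^ 2 * (κ x * ((Q x).det.re * s x ^ 2))) T :=
        (i3.const_mul (t ^ 2)).integrableOn
      have j3 : IntegrableOn (fun x => t * (κ x * ((Q x).det.re * s x))) T :=
        (i2.const_mul t).integrableOn
      rw [integral_add j1 j2, integral_add i1.integrableOn j3, integral_const_mul,
        integral_const_mul]
      rfl
    rw [e1, e4] at e3
    have e5 : 1 + (k : ℝ) * t ≤ (1 + t) ^ k := one_add_mul_le_pow (by linarith) k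
    have e6 := mul_le_mul_of_nonneg_right e5 hV.le
    have e7 : t * (k * vol T κ Q) ≤ t * ((∫ x in T, κ x * ((Q x).det.re * s x)) +
        t * ∫ x in T, κ x * ((Q x).det.re * s x ^ 2)) := by nlinarith
    exact le_of_mul_le_mul_left e7 ht
  have hlim : k * vol T κ Q ≤ ∫ x in T, κ x * ((Q x).det.re * s x) := by
    have hc : Tendsto (fun t : ℝ => (∫ x in T, κ x * ((Q x).det.re * s x)) +
        t * ∫ x in T, κ x * ((Q x).det.re * s x ^ 2)) (𝓝[>] 0)
        (𝓝 ((∫ x in T, κ x * ((Q x).det.re * s x)) +
        0 * ∫ x in T, κ x * ((Q x).det.re * s x ^ 2))) := by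
      apply Tendsto.mono_left _ nhdsWithin_le_nhds
      exact (continuous_const.add (continuous_id.mul continuous_const)).tendsto 0
    rw [zero_mul, add_zero] at hc
    refine ge_of_tendsto hc ?_
    have : Ioo (0 : ℝ) (1 / B) ∈ 𝓝[>] (0 : ℝ) := Ioo_mem_nhdsGT (by positivity)
    filter_upwards [this] with t ht
    refine key t ht.1 ?_
    have := mul_le_mul_of_nonneg_right ht.2.le hB0.le
    rwa [one_div, inv_mul_cancel₀ hB0.ne'] at this
  refine hlim.trans (le_of_eq ?_)
  apply integral_congr_ae
  filter_upwards with x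
  simp only [hs]
  ring

end Pool.Agent.Helper40.HS
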